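import Pool.Agent.H330FB.Assembly2

set_option autoImplicit false

/-!
# Factorization of bivariate polynomials over finite fields in sub-cubic time

There is one program (a closed term of the language of `Lang.lean`, in which every elementary step
costs one unit; the same term for all finite fields and all degrees) which, for `q = |F|` at most
polynomial in `d`, on input `q` in binary, the list of all coefficients of a polynomial `f` in two
variables of total degree `d`, and a list of elements of `F`, stops after at most
`C d^(3 - 1/10)` steps, and whose output is, for at least two thirds of all lists of the length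
`numRandom d`, the complete factorization of `f`.
-/

namespace Pool.Agent.Results.MP_8d07ed_lc.SubCubic

open Pool.Agent.H330FB

theorem result :
    ∃ main : Pr [] (.prod (.list .fld) (.prod (.list (.list .fld)) (.list .fld)))
      (.list (.prod (.list (.list .fld)) (.list .unit))),
    ∀ c : ℕ, ∃ C : ℝ, ∀ (F : Type) [Field F] [Fintype F] [DecidableEq F] (d : ℕ)
      (f : MvPolynomial (Fin 2) F), 1 ≤ d → f.totalDegree = d → Fintype.card F ≤ c * d ^ c →
      (∀ ω : List F,
        (main.cost () () (binary F (Fintype.card F), (coeffRows d f, ω)) : ℝ) ≤
          C * (d : ℝ) ^ (3 - 1 / 10 : ℝ)) ∧
      2 * Fintype.card F ^ numRandom d ≤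
        3 * Nat.card {ω : Fin (numRandom d) → F //
          IsFactorization f
            (main.val () (binary F (Fintype.card F), (coeffRows d f, List.ofFn ω)))} :=
  Assembly2.final2

end Pool.Agent.Results.MP_8d07ed_lc.SubCubic
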